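import Pool.Agent.H33R2.ThmC2
import Pool.Agent.H33R2.V4
import Pool.Agent.H33R2.AmpleK

/-!
# Every finite group is a Galois group over all large number fields

For every finite group `G` there is a number field `K₀` such that `G` is the Galois group of a Galois
extension of `K(t)` for every number field (and more generally every algebraic extension) `K` of `K₀`.
-/

set_option autoImplicit false
set_option linter.all false
set_option maxHeartbeats 4000000

namespace Pool.Agent.U880.MB

open Polynomial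

/-- the algebraic numbers -/
abbrev Qb : Type := AlgebraicClosure ℚ

theorem exists_prim (n : ℕ) (hn : n ≠ 0) : ∃ ζ : Qb, IsPrimitiveRoot ζ n := by
  have : NeZero (n : Qb) := ⟨by exact_mod_cast hn⟩
  obtain ⟨ζ, hζ⟩ := IsAlgClosed.exists_root (cyclotomic n Qb)
    (by rw [degree_cyclotomic]; exact_mod_cast (Nat.totient_pos.2 (Nat.pos_of_ne_zero hn)).ne')
  exact ⟨ζ, (isRoot_cyclotomic_iff).1 hζ⟩

theorem sub_aut (σ τ : Qb ≃ₐ[Qb] Qb) : σ = τ := AlgEquiv.ext fun x => by
  have h1 : ∀ ρ : Qb ≃ₐ[Qb] Qb, ρ x = x := fun ρ => ρ.commutes x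
  rw [h1, h1]

/-- Every finite group is a Galois group over `Qb(t)`. -/
theorem exists_reg (G : Type) [Group G] [Finite G] : ∃ (F : Type) (_ : Field F)
    (_ : Algebra (RatFunc Qb) F), FiniteDimensional (RatFunc Qb) F ∧ IsGalois (RatFunc Qb) F ∧
      Nonempty ((F ≃ₐ[RatFunc Qb] F) ≃* G) := by
  obtain ⟨ζ, hζ⟩ := exists_prim (Monoid.exponent G) Monoid.exponent_ne_zero_of_finite
  obtain ⟨F, i1, i2, i3, i4, i5, i6, i7, i8, γ, -, -⟩ := H33.thmC Qb Qb Qb G
    (H33.ample_of_isAlgClosed Qb) hζ (1 : G →* (Qb ≃ₐ[Qb] Qb)) (fun σ => ⟨1, sub_aut _ _⟩) ⊥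
    (by simp) (by
      have h1 : (⊥ ⊔ (1 : G →* (Qb ≃ₐ[Qb] Qb)).ker) = ⊤ := by
        rw [MonoidHom.ker_one]; simp
      have h2 : Subsingleton (G ⧸ (⊥ ⊔ (1 : G →* (Qb ≃ₐ[Qb] Qb)).ker)) := by
        rw [h1]; exact QuotientGroup.subsingleton_quotient_top
      infer_instance)
  exact ⟨F, i1, i2, i7, i8, ⟨γ⟩⟩


/-- the map of the rational functions -/
noncomputable def rmap {K L : Type} [Field K] [Field L] (f : K →+* L) : RatFunc K →+* RatFunc L :=
  RatFunc.mapRingHom (Polynomial.mapRingHom f) (by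
    intro p hp
    rw [Submonoid.mem_comap]
    exact mem_nonZeroDivisors_of_ne_zero (by
      have := nonZeroDivisors.ne_zero hp
      rwa [coe_mapRingHom, Ne, Polynomial.map_eq_zero]))

theorem rmap_div {K L : Type} [Field K] [Field L] (f : K →+* L) (p q : K[X]) :
    rmap f (algebraMap K[X] (RatFunc K) p / algebraMap K[X] (RatFunc K) q) =
      algebraMap L[X] (RatFunc L) (p.map f) / algebraMap L[X] (RatFunc L) (q.map f) := by
  unfold rmap
  rw [RatFunc.coe_mapRingHom_eq_coe_map, RatFunc.map_apply_div]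
  rfl

theorem rmap_comp {K L M : Type} [Field K] [Field L] [Field M] (f : K →+* L) (g : L →+* M)
    (x : RatFunc K) : rmap g (rmap f x) = rmap (g.comp f) x := by
  induction x using RatFunc.induction_on with
  | f p q hq => rw [rmap_div, rmap_div, rmap_div, Polynomial.map_map, Polynomial.map_map]

/-- A finite set of rational functions over the algebraic numbers is defined over a number field. -/
theorem exists_field (S : Finset (RatFunc Qb)) : ∃ K₀ : IntermediateField ℚ Qb,
    FiniteDimensional ℚ K₀ ∧ ∀ s ∈ S, s ∈ (rmap (algebraMap K₀ Qb)).range := by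
  classical
  have halg : Algebra.IsAlgebraic ℚ Qb := by
    have h1 := AlgebraicClosure.isAlgebraic ℚ
    have h2 : AlgebraicClosure.instAlgebra ℚ = (DivisionRing.toRatAlgebra : Algebra ℚ Qb) :=
      Subsingleton.elim _ _
    rw [h2] at h1
    exact h1
  let T : Finset Qb := S.biUnion fun s => s.num.coeffs ∪ s.denom.coeffs
  refine ⟨IntermediateField.adjoin ℚ (T : Set Qb), ?_, ?_⟩
  · exact IntermediateField.finiteDimensional_adjoin fun x _ =>
      (Algebra.IsAlgebraic.isAlgebraic (R := ℚ) x).isIntegral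
  · intro s hs
    have hl : ∀ p : Qb[X], p.coeffs ⊆ T → ∃ p₀ : (IntermediateField.adjoin ℚ (T : Set Qb))[X],
        p₀.map (algebraMap _ Qb) = p := by
      intro p hp
      have h1 : p ∈ Polynomial.lifts (algebraMap (IntermediateField.adjoin ℚ (T : Set Qb)) Qb) := by
        rw [Polynomial.lifts_iff_coeffs_subset_range]
        intro c hc
        exact ⟨⟨c, IntermediateField.subset_adjoin ℚ _ (hp hc)⟩, rfl⟩
      exact (Polynomial.mem_lifts p).1 h1
    obtain ⟨a, ha⟩ := hl s.num (fun c hc => Finset.mem_biUnion.2 ⟨s, hs, Finset.mem_union_left _ hc⟩)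
    obtain ⟨b, hb⟩ := hl s.denom (fun c hc => Finset.mem_biUnion.2 ⟨s, hs, Finset.mem_union_right _ hc⟩)
    refine ⟨algebraMap _ _ a / algebraMap _ _ b, ?_⟩
    rw [rmap_div, ha, hb]
    exact RatFunc.num_div_denom s

/-- **Every finite group is a Galois group over `K(t)` for all algebraic extensions `K` of a suitable
number field.** -/
theorem descend (G : Type) [Group G] [Finite G] : ∃ K₀ : IntermediateField ℚ Qb,
    FiniteDimensional ℚ K₀ ∧ ∀ (K : Type) [Field K] [Algebra K₀ K] [Algebra.IsAlgebraic K₀ K],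
      ∃ (F : Type) (_ : Field F) (_ : Algebra (RatFunc K) F), FiniteDimensional (RatFunc K) F ∧
        IsGalois (RatFunc K) F ∧ Nonempty ((F ≃ₐ[RatFunc K] F) ≃* G) := by
  classical
  obtain ⟨F, i1, i2, i3, i4, ⟨γ⟩⟩ := exists_reg G
  obtain ⟨y, hy⟩ := Field.exists_primitive_element (RatFunc Qb) F
  have hint : IsIntegral (RatFunc Qb) y := IsIntegral.of_finite _ y
  obtain ⟨S, hS⟩ := H33.spec_lemma y hy ∅
  obtain ⟨K₀, hfd, hK₀⟩ := exists_field (S ∪ (minpoly (RatFunc Qb) y).coeffs)
  refine ⟨K₀, hfd, fun K _ _ _ => ?_⟩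
  let j : K →ₐ[K₀] Qb := IsAlgClosed.lift
  let A : Subring (RatFunc Qb) := (rmap (algebraMap K₀ Qb)).range
  let e : RatFunc K₀ ≃+* A := RingEquiv.ofBijective (rmap (algebraMap K₀ Qb)).rangeRestrict
    ⟨fun a b h => (rmap (algebraMap K₀ Qb)).injective (congrArg Subtype.val h),
      (rmap (algebraMap K₀ Qb)).rangeRestrict_surjective⟩
  let φ : A →+* RatFunc K := (rmap (algebraMap K₀ K)).comp e.symm.toRingHom
  have hφ : (rmap (j : K →+* Qb)).comp φ = A.subtype := by
    ext a
    obtain ⟨x, rfl⟩ := e.surjective a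
    change rmap (j : K →+* Qb) (rmap (algebraMap K₀ K) (e.symm (e x))) = _
    rw [e.symm_apply_apply, rmap_comp]
    have h1 : (j : K →+* Qb).comp (algebraMap K₀ K) = algebraMap K₀ Qb := j.comp_algebraMap
    rw [h1]
    rfl
  obtain ⟨fA, hfA⟩ : ∃ fA : A[X], fA.map A.subtype = minpoly (RatFunc Qb) y := by
    have h1 : minpoly (RatFunc Qb) y ∈ Polynomial.lifts A.subtype := by
      rw [Polynomial.lifts_iff_coeffs_subset_range]
      intro c hc
      exact ⟨⟨c, hK₀ c (Finset.mem_union_right _ hc)⟩, rfl⟩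
    exact (Polynomial.mem_lifts _).1 h1
  have hirr : Irreducible (fA.map φ) := by
    have hm : fA.Monic := monic_of_injective (Subring.subtype_injective A)
      (by rw [hfA]; exact minpoly.monic hint)
    apply Polynomial.Monic.irreducible_of_irreducible_map (rmap (j : K →+* Qb)) _ (hm.map φ)
    rw [Polynomial.map_map, hφ, hfA]
    exact minpoly.irreducible hint
  obtain ⟨F', j1, j2, j3, j4, ψ, -⟩ := hS A
    (fun s hs => hK₀ s (Finset.mem_union_left _ hs)) (RatFunc K) φ fA hfA hirr
  exact ⟨F', j1, j2, j3, j4, ⟨ψ.symm.trans γ⟩⟩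

end Pool.Agent.U880.MB
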