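import Mathlib
import Pool.Agent.U880.MB.Reg
import Pool.Agent.Y793.Ml
import Pool.Agent.Y793.Fin
import Pool.Agent.H391R2.T4.Abl

/-!
# Every finite group is a Galois group over all number fields containing a suitable number field
-/

set_option autoImplicit false
set_option linter.all false

namespace Pool.Agent.U880.MB

/-- Specialisation. -/
theorem real_of_reg (K : Type) [Field K] [NumberField K] (G : Type) [Group G] [Finite G]
    (h : ∃ (F : Type) (_ : Field F) (_ : Algebra (RatFunc K) F), FiniteDimensional (RatFunc K) F ∧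
        IsGalois (RatFunc K) F ∧ Nonempty ((F ≃ₐ[RatFunc K] F) ≃* G)) :
    ∃ (L : Type) (_ : Field L) (_ : Algebra K L), IsGalois K L ∧
      Nonempty (G ≃* (L ≃ₐ[K] L)) := by
  obtain ⟨F, i1, i2, i3, i4, ⟨γ⟩⟩ := h
  letI iK : Algebra K F := ((algebraMap (RatFunc K) F).comp (algebraMap K (RatFunc K))).toAlgebra
  have t1 : IsScalarTower K (RatFunc K) F := IsScalarTower.of_algebraMap_eq (fun _ => rfl)
  have t2 : IsScalarTower K K F := IsScalarTower.of_algebraMap_eq (fun _ => rfl)
  obtain ⟨F', j1, j2, j3, j4, j5, j6, γ', -⟩ := H33.hilbert_spec K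
    (Pool.Agent.H391R2.T4.hilb_numberField K) K G 1
    ⟨F, i1, i2, iK, iK, t1, t2, i3, i4, γ, fun σ x => by
      change σ (algebraMap K F x) = algebraMap K F x
      rw [t1.algebraMap_apply]
      exact σ.commutes _⟩
  exact ⟨F', j1, j2, j6, ⟨γ'.symm⟩⟩

/-- **For every finite group `G` there is a number field `K₀` such that every number field containing
`K₀` has a Galois extension with Galois group `G`.** -/
theorem exists_base (G : Type) [Group G] [Finite G] :
    ∃ (K₀ : Type) (_ : Field K₀) (_ : NumberField K₀), ∀ (K : Type) [Field K] [NumberField K]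
      [Algebra K₀ K], (TH444.ML.Gal K (AlgebraicClosure K) G).Nonempty := by
  obtain ⟨K₀, hfd, h⟩ := descend G
  have hn : NumberField K₀ := { to_charZero := inferInstance, to_finiteDimensional := hfd }
  refine ⟨K₀, inferInstance, hn, fun K _ _ _ => ?_⟩
  have : IsScalarTower ℚ K₀ K := IsScalarTower.of_algebraMap_eq' (Subsingleton.elim _ _)
  have : Algebra.IsAlgebraic K₀ K := Algebra.IsAlgebraic.tower_top (K := ℚ) K₀
  exact Y793.gal_of_real K (AlgebraicClosure K) G (real_of_reg K G (h K))

end Pool.Agent.U880.MB
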